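import Pool.Agent.Lib.MP_5349a4_pr.M.Iface3

/-!
# SUMR (7.4)
-/

set_option autoImplicit false

open MeasureTheory Set Metric
open scoped ENNReal NNReal

namespace Pool.Agent.Lib.MP_5349a4_pr.H10

/-- packing bound -/
theorem packing {d : ℕ} (v : Eu d) (r : ℝ) (hr : 1 ≤ r) (s : Finset (Eu d))
    (hs : ∀ c ∈ s, dist c v ≤ r) (h : ∀ c ∈ s, ∀ c' ∈ s, c ≠ c' → 1 ≤ dist c c') :
    (s.card : ℝ) ≤ (3 * r) ^ d := by
  have hr0 : 0 < r + 1 / 2 := by linarith
  have D : Set.Pairwise (s : Set (Eu d)) (Function.onFun Disjoint fun c => ball (c : Eu d) (1 / 2)) := by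
    rintro c hc c' hc' hcc
    apply ball_disjoint_ball
    have := h c hc c' hc' hcc
    linarith
  have hsub : (⋃ c ∈ s, ball (c : Eu d) (1 / 2)) ⊆ ball v (r + 1 / 2) := by
    refine iUnion₂_subset fun x hx => ?_
    apply ball_subset_ball'
    have := hs x hx
    linarith
  have I : (s.card : ℝ≥0∞) * ENNReal.ofReal ((1 / 2 : ℝ) ^ d) * volume (ball (0 : Eu d) 1) ≤
      ENNReal.ofReal ((r + 1 / 2) ^ d) * volume (ball (0 : Eu d) 1) :=
    calc (s.card : ℝ≥0∞) * ENNReal.ofReal ((1 / 2 : ℝ) ^ d) * volume (ball (0 : Eu d) 1)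
        = volume (⋃ c ∈ s, ball (c : Eu d) (1 / 2)) := by
          rw [measure_biUnion_finset D fun c _ => measurableSet_ball]
          have h2 : ∀ c ∈ s, volume (ball (c : Eu d) (1 / 2)) =
              ENNReal.ofReal ((1 / 2 : ℝ) ^ d) * volume (ball (0 : Eu d) 1) := by
            intro c _
            rw [Measure.addHaar_ball_of_pos _ _ (by norm_num : (0 : ℝ) < 1 / 2),
              finrank_euclideanSpace_fin]
          rw [Finset.sum_congr rfl h2, Finset.sum_const, nsmul_eq_mul, mul_assoc]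
      _ ≤ volume (ball v (r + 1 / 2)) := measure_mono hsub
      _ = ENNReal.ofReal ((r + 1 / 2) ^ d) * volume (ball (0 : Eu d) 1) := by
          rw [Measure.addHaar_ball_of_pos _ _ hr0, finrank_euclideanSpace_fin]
  have J : (s.card : ℝ≥0∞) * ENNReal.ofReal ((1 / 2 : ℝ) ^ d) ≤ ENNReal.ofReal ((r + 1 / 2) ^ d) :=
    (ENNReal.mul_le_mul_iff_left (measure_ball_pos _ _ zero_lt_one).ne' measure_ball_lt_top.ne).1 I
  have K : (s.card : ℝ) * (1 / 2 : ℝ) ^ d ≤ (r + 1 / 2) ^ d := by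
    have := ENNReal.toReal_le_of_le_ofReal (pow_nonneg hr0.le _) J
    rwa [ENNReal.toReal_mul, ENNReal.toReal_natCast, ENNReal.toReal_ofReal (by positivity)] at this
  have h3 : (s.card : ℝ) ≤ (2 * (r + 1 / 2)) ^ d := by
    have h4 : (s.card : ℝ) = (s.card : ℝ) * (1 / 2 : ℝ) ^ d * 2 ^ d := by
      rw [mul_assoc, ← mul_pow]; norm_num
    rw [h4, mul_pow, mul_comm ((2 : ℝ) ^ d)]
    exact mul_le_mul_of_nonneg_right K (by positivity)
  refine h3.trans (pow_le_pow_left₀ (by positivity) ?_ d)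
  linarith

/-- number of points in a large ball -/
theorem card_ball {d : ℕ} (R : Finset (Eu d)) (Δ : ℝ) (hD : Dens (R : Set (Eu d)) Δ)
    (v : Eu d) (r : ℝ) (hr : 1 ≤ r) :
    ((R.filter fun x => dist x v ≤ r).card : ℝ) ≤ (3 * r) ^ d * Δ := by
  classical
  set T : Finset (Eu d) := R.filter fun x => dist x v ≤ r with hT
  -- a maximal separated subset
  let F : Finset (Finset (Eu d)) := T.powerset.filter fun s =>
    ∀ c ∈ s, ∀ c' ∈ s, c ≠ c' → 1 ≤ dist c c'
  have hF : F.Nonempty := ⟨∅, by simp [F]⟩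
  obtain ⟨s, hsF, hmax⟩ := F.exists_max_image Finset.card hF
  have hs1 : s ⊆ T := Finset.mem_powerset.1 (Finset.mem_filter.1 hsF).1
  have hs2 : ∀ c ∈ s, ∀ c' ∈ s, c ≠ c' → 1 ≤ dist c c' := (Finset.mem_filter.1 hsF).2
  have hcov : ∀ x ∈ T, ∃ c ∈ s, dist x c ≤ 1 := by
    intro x hx
    by_contra hcon
    push Not at hcon
    have hxs : x ∉ s := fun h => by
      have := hcon x h
      rw [dist_self] at this
      linarith
    have hin : insert x s ∈ F := by
      refine Finset.mem_filter.2 ⟨Finset.mem_powerset.2 (Finset.insert_subset hx hs1), ?_⟩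
      intro c hc c' hc' hne
      rcases Finset.mem_insert.1 hc with h1 | h1 <;> rcases Finset.mem_insert.1 hc' with h2 | h2
      · exact absurd (h1.trans h2.symm) hne
      · rw [h1]; exact (hcon c' h2).le
      · rw [h2, dist_comm]; exact (hcon c h1).le
      · exact hs2 c h1 c' h2 hne
    have := hmax _ hin
    rw [Finset.card_insert_of_notMem hxs] at this
    omega
  have hcard : (T.card : ℝ) ≤ (s.card : ℝ) * Δ := by
    have h1 : T ⊆ s.biUnion fun c => R.filter fun x => dist x c ≤ 1 := by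
      intro x hx
      obtain ⟨c, hc, hxc⟩ := hcov x hx
      exact Finset.mem_biUnion.2 ⟨c, hc, Finset.mem_filter.2 ⟨(Finset.mem_filter.1 hx).1, hxc⟩⟩
    have h2 : (T.card : ℝ) ≤ ∑ c ∈ s, ((R.filter fun x => dist x c ≤ 1).card : ℝ) := by
      have := (Finset.card_le_card h1).trans Finset.card_biUnion_le
      exact_mod_cast this
    refine h2.trans ?_
    have h3 : ∀ c ∈ s, ((R.filter fun x => dist x c ≤ 1).card : ℝ) ≤ Δ := by
      intro c _
      have h4 := hD c
      have h5 : ((R : Set (Eu d)) ∩ bal c 1) = ((R.filter fun x => dist x c ≤ 1 : Finset (Eu d)) :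
          Set (Eu d)) := by
        ext x
        simp [bal, Metric.mem_closedBall]
      rwa [h5, ncard_coe_finset] at h4
    refine (Finset.sum_le_sum h3).trans (le_of_eq ?_)
    rw [Finset.sum_const, nsmul_eq_mul]
  have hΔ : 0 ≤ Δ := (Nat.cast_nonneg _).trans (hD v)
  refine hcard.trans (mul_le_mul_of_nonneg_right ?_ hΔ)
  exact packing v r hr s (fun c hc => (Finset.mem_filter.1 (hs1 hc)).2) hs2

/-- dyadic decomposition -/
theorem dyadic (D : ℕ) (s : ℝ) (hs : 1 ≤ s) (K : ℕ) :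
    1 / s ^ D ≤ 1 / (2 ^ K : ℝ) ^ D +
      ∑ k ∈ Finset.range (K + 1), (if s ≤ 2 ^ k then (2 : ℝ) ^ D / (2 ^ k : ℝ) ^ D else 0) := by
  induction K with
  | zero =>
    have h1 : 1 / s ^ D ≤ 1 := by
      rw [div_le_one (by positivity)]
      exact one_le_pow₀ hs
    have h2 : (0 : ℝ) ≤ ∑ k ∈ Finset.range (0 + 1),
        (if s ≤ 2 ^ k then (2 : ℝ) ^ D / (2 ^ k : ℝ) ^ D else 0) := by
      refine Finset.sum_nonneg fun k _ => ?_
      split_ifs
      · positivity
      · exact le_rfl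
    simp only [pow_zero, one_pow, div_one]
    linarith
  | succ K ih =>
    rw [Finset.sum_range_succ]
    by_cases h : s ≤ 2 ^ (K + 1)
    · rw [if_pos h]
      have h3 : (2 : ℝ) ^ D / (2 ^ (K + 1) : ℝ) ^ D = 1 / (2 ^ K : ℝ) ^ D := by
        rw [pow_succ, mul_pow]
        field_simp
      rw [h3]
      have h4 : (0 : ℝ) ≤ 1 / (2 ^ (K + 1) : ℝ) ^ D := by positivity
      linarith
    · rw [if_neg h, add_zero]
      push Not at h
      have h5 : 1 / s ^ D ≤ 1 / (2 ^ (K + 1) : ℝ) ^ D := by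
        apply one_div_le_one_div_of_le (by positivity)
        exact pow_le_pow_left₀ (by positivity) h.le D
      have h6 : (0 : ℝ) ≤ ∑ k ∈ Finset.range (K + 1),
          (if s ≤ 2 ^ k then (2 : ℝ) ^ D / (2 ^ k : ℝ) ^ D else 0) := by
        refine Finset.sum_nonneg fun k _ => ?_
        split_ifs
        · positivity
        · exact le_rfl
      linarith

theorem geom_bound (a K : ℕ) (ha : 1 ≤ a) :
    ∑ k ∈ Finset.range (K + 1), ((2 : ℝ) ^ a) ^ k ≤ 2 * ((2 : ℝ) ^ a) ^ K := by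
  have hq : (2 : ℝ) ≤ 2 ^ a := by
    calc (2 : ℝ) = 2 ^ 1 := by norm_num
      _ ≤ 2 ^ a := pow_le_pow_right₀ (by norm_num) ha
  induction K with
  | zero => simp
  | succ K ih =>
    rw [Finset.sum_range_succ, pow_succ]
    have : 0 ≤ ((2 : ℝ) ^ a) ^ K := by positivity
    nlinarith

theorem sumr : SumRStatement := by
  classical
  intro d κ hκ hd
  have hκ2 : κ ≤ κ ^ 2 := by nlinarith
  refine ⟨1 + 3 ^ d * (2 : ℝ) ^ d * (2 * 2 ^ d), by positivity, ?_⟩
  intro a R Δ v ha hR hΔ hD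
  have ha1 : 1 ≤ a := by rcases ha with h | h <;> omega
  have ha2 : a ≤ 2 * κ := by rcases ha with h | h <;> omega
  have had : a ≤ d := by nlinarith
  set D : ℕ := d - a with hDdef
  have hDd : D + a = d := by omega
  have hD1 : 1 ≤ D := by
    have : 2 * κ + 1 ≤ 1000 * κ ^ 2 := by nlinarith
    omega
  have hm : 1 ≤ R.card := hR.card_pos
  have hm' : (1 : ℝ) ≤ R.card := by exact_mod_cast hm
  have hm0 : (0 : ℝ) < R.card := by linarith
  -- choice of `K`
  have hex : ∃ K : ℕ, R.card ≤ 2 ^ (K * D) := by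
    refine ⟨R.card, ?_⟩
    calc R.card ≤ 2 ^ R.card := Nat.lt_two_pow_self.le
      _ ≤ 2 ^ (R.card * D) := Nat.pow_le_pow_right (by norm_num) (Nat.le_mul_of_pos_right _ hD1)
  obtain ⟨K, hK, hKmin⟩ : ∃ K : ℕ, R.card ≤ 2 ^ (K * D) ∧ ∀ k < K, ¬ R.card ≤ 2 ^ (k * D) :=
    ⟨Nat.find hex, Nat.find_spec hex, fun k hk => Nat.find_min hex hk⟩
  set M : ℝ := (R.card : ℝ) ^ (1 / (400 * (κ : ℝ))) with hM
  have hκ0 : (0 : ℝ) < κ := by exact_mod_cast hκ
  have hM1 : 1 ≤ M := Real.one_le_rpow hm' (by positivity)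
  have hKa : ((2 : ℝ) ^ a) ^ K ≤ 2 ^ a * M := by
    rcases Nat.eq_zero_or_pos K with h0 | hpos
    · rw [h0, pow_zero]
      have : (1 : ℝ) ≤ 2 ^ a := one_le_pow₀ (by norm_num)
      nlinarith
    · obtain ⟨k, rfl⟩ : ∃ k, K = k + 1 := ⟨K - 1, by omega⟩
      have h1 := hKmin k (by omega)
      push Not at h1
      have h2 : ((2 : ℝ) ^ (k * D)) ≤ R.card := by exact_mod_cast h1.le
      have h3 : ((2 : ℝ) ^ a) ^ k ≤ M := by
        have h4 : ((2 : ℝ) ^ a) ^ k ≤ ((2 : ℝ) ^ (k * D)) ^ (1 / (400 * (κ : ℝ))) := by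
          rw [← pow_mul, ← Real.rpow_natCast, ← Real.rpow_natCast, ← Real.rpow_mul (by norm_num)]
          apply Real.rpow_le_rpow_of_exponent_le (by norm_num)
          rw [mul_one_div, le_div_iff₀ (by positivity)]
          have h5 : a * (400 * κ) ≤ D := by
            have : a * (400 * κ) ≤ 2 * κ * (400 * κ) := Nat.mul_le_mul_right _ ha2
            have h6 : 2 * κ * (400 * κ) = 800 * κ ^ 2 := by ring
            have h7 : 800 * κ ^ 2 + a ≤ d := by nlinarith
            omega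
          have h5' : (a : ℝ) * (400 * κ) ≤ D := by exact_mod_cast h5
          push_cast
          calc (a : ℝ) * k * (400 * κ) = k * (a * (400 * κ)) := by ring
            _ ≤ k * D := mul_le_mul_of_nonneg_left h5' (Nat.cast_nonneg _)
        exact h4.trans (Real.rpow_le_rpow (by positivity) h2 (by positivity))
      rw [pow_succ, mul_comm]
      exact mul_le_mul_of_nonneg_left h3 (by positivity)
  -- pointwise
  have h1 : ∀ x ∈ R, 1 / (max 1 (dist x v)) ^ D ≤ 1 / (R.card : ℝ) +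
      ∑ k ∈ Finset.range (K + 1),
        (if dist x v ≤ 2 ^ k then (2 : ℝ) ^ D / (2 ^ k : ℝ) ^ D else 0) := by
    intro x _
    refine (dyadic D _ (le_max_left _ _) K).trans (add_le_add ?_ ?_)
    · apply one_div_le_one_div_of_le hm0
      rw [← pow_mul]
      exact_mod_cast hK
    · refine Finset.sum_le_sum fun k _ => ?_
      by_cases h : max 1 (dist x v) ≤ 2 ^ k
      · rw [if_pos h, if_pos ((le_max_right _ _).trans h)]
      · rw [if_neg h]
        split_ifs
        · positivity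
        · exact le_rfl
  calc ∑ x ∈ R, 1 / (max 1 (dist x v)) ^ D
      ≤ ∑ x ∈ R, (1 / (R.card : ℝ) + ∑ k ∈ Finset.range (K + 1),
        (if dist x v ≤ 2 ^ k then (2 : ℝ) ^ D / (2 ^ k : ℝ) ^ D else 0)) :=
        Finset.sum_le_sum h1
    _ = 1 + ∑ k ∈ Finset.range (K + 1),
        ((R.filter fun x => dist x v ≤ 2 ^ k).card : ℝ) * ((2 : ℝ) ^ D / (2 ^ k : ℝ) ^ D) := by
        rw [Finset.sum_add_distrib, Finset.sum_const, nsmul_eq_mul, mul_one_div_cancel hm0.ne',
          Finset.sum_comm]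
        congr 1
        refine Finset.sum_congr rfl fun k _ => ?_
        rw [← Finset.sum_filter, Finset.sum_const, nsmul_eq_mul]
    _ ≤ 1 + ∑ k ∈ Finset.range (K + 1), (3 ^ d * (2 : ℝ) ^ d * Δ) * ((2 : ℝ) ^ a) ^ k := by
        refine add_le_add le_rfl (Finset.sum_le_sum fun k _ => ?_)
        have h2 := card_ball R Δ hD v (2 ^ k) (one_le_pow₀ (by norm_num))
        refine (mul_le_mul_of_nonneg_right h2 (by positivity)).trans ?_
        have h3 : ((2 : ℝ) ^ k) ^ d = (2 ^ k) ^ D * (2 ^ a) ^ k := by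
          rw [← hDd, pow_add, ← pow_mul 2 a k, ← pow_mul 2 k a, mul_comm a k]
        have h4 : (3 * (2 : ℝ) ^ k) ^ d * Δ * (2 ^ D / (2 ^ k) ^ D) =
            3 ^ d * 2 ^ D * Δ * (2 ^ a) ^ k := by
          rw [mul_pow, h3]
          field_simp
        rw [h4]
        have h5 : (2 : ℝ) ^ D ≤ 2 ^ d := pow_le_pow_right₀ (by norm_num) (by omega)
        have h6 : (0 : ℝ) ≤ Δ := by linarith
        gcongr
    _ = 1 + (3 ^ d * (2 : ℝ) ^ d * Δ) * ∑ k ∈ Finset.range (K + 1), ((2 : ℝ) ^ a) ^ k := by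
        rw [Finset.mul_sum]
    _ ≤ 1 + (3 ^ d * (2 : ℝ) ^ d * Δ) * (2 * (2 ^ a * M)) := by
        have h6 : (0 : ℝ) ≤ Δ := by linarith
        refine add_le_add le_rfl (mul_le_mul_of_nonneg_left ?_ (by positivity))
        exact (geom_bound a K ha1).trans (mul_le_mul_of_nonneg_left hKa (by norm_num))
    _ ≤ (1 + 3 ^ d * (2 : ℝ) ^ d * (2 * 2 ^ d)) * Δ * M := by
        have h6 : (0 : ℝ) ≤ Δ := by linarith
        have h7 : (1 : ℝ) ≤ Δ * M := by nlinarith
        have h8 : (2 : ℝ) ^ a ≤ 2 ^ d := pow_le_pow_right₀ (by norm_num) had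
        have h9 : (3 ^ d * (2 : ℝ) ^ d * Δ) * (2 * (2 ^ a * M)) ≤
            (3 ^ d * (2 : ℝ) ^ d * Δ) * (2 * (2 ^ d * M)) := by
          gcongr
        have h10 : (1 + 3 ^ d * (2 : ℝ) ^ d * (2 * 2 ^ d)) * Δ * M =
            Δ * M + (3 ^ d * (2 : ℝ) ^ d * Δ) * (2 * (2 ^ d * M)) := by ring
        rw [h10]
        linarith

end Pool.Agent.Lib.MP_5349a4_pr.H10
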