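import Pool.Agent.Lib.MP_5349a4_pr.M.Base
import Pool.Agent.Lib.MP_5349a4_pr.M.H10.Sumr

/-!
# DENS
-/

set_option autoImplicit false

open MeasureTheory Set Metric Filter Topology
open scoped ENNReal NNReal

namespace Pool.Agent.Lib.MP_5349a4_pr.H10

/-- a maximal separated set in a ball -/
theorem exists_net {d : ℕ} (v : Eu d) (r : ℝ) (hr : 1 ≤ r) :
    ∃ s : Finset (Eu d), (s.card : ℝ) ≤ (3 * r) ^ d ∧ ∀ x ∈ bal v r, ∃ c ∈ s, dist x c ≤ 1 := by
  classical
  let Pk : ℕ → Prop := fun k => ∃ s : Finset (Eu d), s.card = k ∧ (∀ c ∈ s, dist c v ≤ r) ∧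
    ∀ c ∈ s, ∀ c' ∈ s, c ≠ c' → 1 ≤ dist c c'
  have hbd : ∀ k, Pk k → k ≤ ⌈(3 * r) ^ d⌉₊ := by
    rintro k ⟨s, hsk, h1, h2⟩
    have := packing v r hr s h1 h2
    rw [hsk] at this
    exact_mod_cast this.trans (Nat.le_ceil _)
  have h0 : Pk 0 := ⟨∅, by simp⟩
  have hmem : Pk (Nat.findGreatest Pk ⌈(3 * r) ^ d⌉₊) := Nat.findGreatest_spec (Nat.zero_le _) h0
  obtain ⟨s, hsk, h1, h2⟩ := hmem
  refine ⟨s, packing v r hr s h1 h2, fun x hx => ?_⟩
  by_contra hcon
  push Not at hcon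
  have hxs : x ∉ s := fun h => by
    have := hcon x h
    rw [dist_self] at this
    linarith
  have hP : Pk (s.card + 1) := by
    refine ⟨insert x s, Finset.card_insert_of_notMem hxs, ?_, ?_⟩
    · intro c hc
      rcases Finset.mem_insert.1 hc with h | h
      · rw [h]; exact hx
      · exact h1 c h
    · intro c hc c' hc' hne
      rcases Finset.mem_insert.1 hc with h3 | h3 <;> rcases Finset.mem_insert.1 hc' with h4 | h4
      · exact absurd (h3.trans h4.symm) hne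
      · rw [h3]; exact (hcon c' h4).le
      · rw [h4, dist_comm]; exact (hcon c h3).le
      · exact h2 c h3 c' h4 hne
  have h5 := Nat.le_findGreatest (hbd _ hP) hP
  omega

theorem dens (hc : CountStatement) : DensStatement := by
  classical
  intro d lam u hd hu hu1
  obtain ⟨b, hb⟩ : ∃ b : ℝ≥0∞, b = lam * volume (bal (0 : Eu d) 2) := ⟨_, rfl⟩
  have hbt : b ≠ ⊤ := by
    rw [hb]
    exact ENNReal.mul_ne_top ENNReal.coe_ne_top measure_closedBall_lt_top.ne
  obtain ⟨a, ha⟩ : ∃ a : ℝ, a = b.toReal := ⟨_, rfl⟩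
  have ha0 : 0 ≤ a := by rw [ha]; exact ENNReal.toReal_nonneg
  have hba : b = ENNReal.ofReal a := by rw [ha, ENNReal.ofReal_toReal hbt]
  obtain ⟨K, hK⟩ : ∃ K : ℝ, K = Real.exp (Real.exp 2 * a) * Real.exp 2 := ⟨_, rfl⟩
  have hK0 : 0 < K := by rw [hK]; positivity
  -- the choice of M
  have hmu : Tendsto (fun m : ℕ => ((m : ℝ)) ^ u) atTop atTop :=
    (tendsto_rpow_atTop hu).comp tendsto_natCast_atTop_atTop
  have hlim := (tendsto_rpow_mul_exp_neg_mul_atTop_nhds_zero (d / u) 1 one_pos).comp hmu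
  have hev : ∀ᶠ m : ℕ in atTop, (((m : ℝ)) ^ u) ^ ((d : ℝ) / u) *
      Real.exp (-1 * ((m : ℝ)) ^ u) < 1 / (12 ^ d * K) := by
    have := hlim.eventually (gt_mem_nhds (show (0 : ℝ) < 1 / (12 ^ d * K) by positivity))
    exact this
  obtain ⟨M, hM⟩ := eventually_atTop.1 hev
  refine ⟨1, max M 1, one_pos, fun m L hm => ?_⟩
  have hmM := hM m (le_trans (le_max_left _ _) hm)
  have hm1 : 1 ≤ m := le_trans (le_max_right _ _) hm
  have hm1' : (1 : ℝ) ≤ m := by exact_mod_cast hm1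
  have hm0 : (0 : ℝ) ≤ m := by linarith
  haveI := finite_leb lam (V := bal (0 : Eu d) L) isBounded_closedBall
  obtain ⟨s, hs, hcov⟩ := exists_net (0 : Eu d) (2 * m + 2) (by linarith)
  obtain ⟨n, hn⟩ : ∃ n : ℕ, n = ⌊(m : ℝ) ^ u⌋₊ := ⟨_, rfl⟩
  have hmu0 : 0 ≤ (m : ℝ) ^ u := Real.rpow_nonneg hm0 _
  have hn1 : (n : ℝ) ≤ (m : ℝ) ^ u := by rw [hn]; exact Nat.floor_le hmu0
  have hn2 : (m : ℝ) ^ u < n + 1 := by rw [hn]; exact Nat.lt_floor_add_one _
  have hsub : {ω : Cfg (Eu d) | ∃ v ∈ bal (0 : Eu d) (2 * m + 2),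
      (m : ℝ) ^ u - 1 < ((pt ω ∩ bal v 1).ncard : ℝ)} ⊆
      ⋃ c ∈ s, {ω : Cfg (Eu d) | n ≤ (pt ω ∩ bal c 2).ncard} := by
    rintro ω ⟨v, hv, hω⟩
    obtain ⟨c, hcs, hvc⟩ := hcov v hv
    simp only [mem_iUnion]
    refine ⟨c, hcs, ?_⟩
    have h1 : (pt ω ∩ bal v 1).ncard ≤ (pt ω ∩ bal c 2).ncard := by
      refine ncard_le_ncard ?_ ((pt_finite ω).subset inter_subset_left)
      rintro x ⟨hx1, hx2⟩
      refine ⟨hx1, ?_⟩
      have h2 : dist x v ≤ 1 := hx2
      have h3 := dist_triangle x v c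
      change dist x c ≤ 2
      linarith
    have h2 : (n : ℝ) < (pt ω ∩ bal v 1).ncard + 1 := by linarith
    have h3 : n < (pt ω ∩ bal v 1).ncard + 1 := by exact_mod_cast h2
    change n ≤ (pt ω ∩ bal c 2).ncard
    omega
  have hone : ∀ c ∈ s, PL (leb lam (bal (0 : Eu d) L))
      {ω : Cfg (Eu d) | n ≤ (pt ω ∩ bal c 2).ncard} ≤
      ENNReal.ofReal (K * Real.exp (-(2 * (m : ℝ) ^ u))) := by
    intro c _
    have h1 := (hc (Eu d) (leb lam (bal (0 : Eu d) L)) (bal c 2)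
      measurableSet_closedBall).2.1 n
    refine h1.trans ?_
    have h2 : leb lam (bal (0 : Eu d) L) (bal c 2) ≤ b := by
      unfold leb
      rw [Measure.smul_apply, smul_eq_mul, hb]
      refine mul_le_mul_of_nonneg_left ?_ zero_le
      refine (Measure.restrict_apply_le _ _).trans (le_of_eq ?_)
      unfold bal
      rw [Measure.addHaar_closedBall_center]
    have h3 : (leb lam (bal (0 : Eu d) L) (bal c 2)) ^ n / (n.factorial : ℝ≥0∞) ≤
        ENNReal.ofReal (a ^ n / n.factorial) := by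
      rw [ENNReal.ofReal_div_of_pos (by positivity), ENNReal.ofReal_pow ha0, ← hba,
        ENNReal.ofReal_natCast]
      gcongr
    refine h3.trans (ENNReal.ofReal_le_ofReal ?_)
    have h4 := Real.pow_div_factorial_le_exp (Real.exp 2 * a) (by positivity) n
    have h5 : a ^ n / n.factorial = (Real.exp 2 * a) ^ n / n.factorial * Real.exp (-(2 * n)) := by
      rw [mul_pow, ← Real.exp_nat_mul, Real.exp_neg]
      have : Real.exp (n * 2) = Real.exp (2 * n) := by rw [mul_comm]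
      rw [this]
      field_simp
    rw [h5, hK]
    have h6 : Real.exp (-(2 * (n : ℝ))) ≤ Real.exp 2 * Real.exp (-(2 * (m : ℝ) ^ u)) := by
      rw [← Real.exp_add]
      apply Real.exp_le_exp.2
      linarith
    calc (Real.exp 2 * a) ^ n / n.factorial * Real.exp (-(2 * n))
        ≤ Real.exp (Real.exp 2 * a) * (Real.exp 2 * Real.exp (-(2 * (m : ℝ) ^ u))) :=
          mul_le_mul h4 h6 (Real.exp_nonneg _) (Real.exp_nonneg _)
      _ = _ := by ring
  calc PL (leb lam (bal (0 : Eu d) L)) {ω | ∃ v ∈ bal (0 : Eu d) (2 * m + 2),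
        (m : ℝ) ^ u - 1 < ((pt ω ∩ bal v 1).ncard : ℝ)}
      ≤ PL (leb lam (bal (0 : Eu d) L))
        (⋃ c ∈ s, {ω : Cfg (Eu d) | n ≤ (pt ω ∩ bal c 2).ncard}) := measure_mono hsub
    _ ≤ ∑ c ∈ s, PL (leb lam (bal (0 : Eu d) L))
        {ω : Cfg (Eu d) | n ≤ (pt ω ∩ bal c 2).ncard} := measure_biUnion_finset_le _ _
    _ ≤ ∑ c ∈ s, ENNReal.ofReal (K * Real.exp (-(2 * (m : ℝ) ^ u))) :=
        Finset.sum_le_sum hone
    _ = ENNReal.ofReal (s.card * (K * Real.exp (-(2 * (m : ℝ) ^ u)))) := by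
        rw [Finset.sum_const, nsmul_eq_mul, ENNReal.ofReal_mul (Nat.cast_nonneg _),
          ENNReal.ofReal_natCast]
    _ ≤ ENNReal.ofReal (Real.exp (-(1 * (m : ℝ) ^ u))) := by
        apply ENNReal.ofReal_le_ofReal
        have h1 : (s.card : ℝ) ≤ 12 ^ d * (m : ℝ) ^ d := by
          rw [← mul_pow]
          refine hs.trans (pow_le_pow_left₀ (by positivity) ?_ d)
          linarith
        have h2 : (((m : ℝ)) ^ u) ^ ((d : ℝ) / u) = (m : ℝ) ^ d := by
          rw [← Real.rpow_mul hm0, mul_div_cancel₀ _ hu.ne', Real.rpow_natCast]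
        rw [h2, lt_div_iff₀ (by positivity)] at hmM
        have h3 : Real.exp (-(2 * (m : ℝ) ^ u)) =
            Real.exp (-1 * (m : ℝ) ^ u) * Real.exp (-(1 * (m : ℝ) ^ u)) := by
          rw [← Real.exp_add]; congr 1; ring
        rw [h3]
        have h4 : (0 : ℝ) < Real.exp (-(1 * (m : ℝ) ^ u)) := Real.exp_pos _
        calc (s.card : ℝ) * (K * (Real.exp (-1 * (m : ℝ) ^ u) * Real.exp (-(1 * (m : ℝ) ^ u))))
            ≤ (12 ^ d * (m : ℝ) ^ d) *
              (K * (Real.exp (-1 * (m : ℝ) ^ u) * Real.exp (-(1 * (m : ℝ) ^ u)))) :=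
              mul_le_mul_of_nonneg_right h1 (by positivity)
          _ = ((m : ℝ) ^ d * Real.exp (-1 * (m : ℝ) ^ u) * (12 ^ d * K)) *
              Real.exp (-(1 * (m : ℝ) ^ u)) := by ring
          _ ≤ 1 * Real.exp (-(1 * (m : ℝ) ^ u)) :=
              mul_le_mul_of_nonneg_right hmM.le h4.le
          _ = _ := one_mul _

end Pool.Agent.Lib.MP_5349a4_pr.H10
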