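import Pool.Agent.Lib.MP_5349a4_pr.M.Base
import Pool.Agent.Lib.MP_5349a4_pr.M.Iface4

/-!
# MUNV
-/

set_option autoImplicit false

open MeasureTheory Set Metric Filter Topology
open scoped ENNReal NNReal

namespace Pool.Agent.Lib.MP_5349a4_pr.H10

variable {d : ℕ}

theorem leb_restrict (lam : ℝ≥0) {V A : Set (Eu d)} (hA : MeasurableSet A) (h : A ⊆ V) :
    (leb lam V).restrict A = leb lam A := by
  unfold leb
  rw [Measure.restrict_smul, Measure.restrict_restrict hA, inter_eq_left.2 h]

theorem leb_map (lam : ℝ≥0) (y : Eu d) (r : ℝ) :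
    (leb lam (bal (0 : Eu d) r)).map (fun z => z + y) = leb lam (bal y r) := by
  unfold leb
  rw [Measure.map_smul]
  congr 1
  have h1 := (measurePreserving_add_right (volume : Measure (Eu d)) y).restrict_preimage
    (s := bal y r) measurableSet_closedBall
  have h2 : (fun z : Eu d => z + y) ⁻¹' bal y r = bal 0 r := by
    ext z
    simp only [mem_preimage, bal, mem_closedBall, dist_eq_norm, add_sub_cancel_right, sub_zero]
  rw [h2] at h1
  exact h1.map_eq

theorem local_transl (hR : ResStatement) (hI : ImgStatement) (lam : ℝ≥0)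
    (gy g0 : Set (Eu d) → ℝ≥0∞) (r L L' : ℝ) (y : Eu d) (hy : CM gy) (h0 : CM g0)
    (hly : ∀ P : Set (Eu d), P.Finite → gy (P ∩ bal y r) = gy P)
    (hl0 : ∀ P : Set (Eu d), P.Finite → g0 (P ∩ bal 0 r) = g0 P)
    (htr : ∀ P : Set (Eu d), gy ((fun z => z + y) '' P) = g0 P) (hrL : r ≤ L)
    (hrL' : r + ‖y‖ ≤ L') :
    ∫⁻ ω, gy (pt ω) ∂PL (leb lam (bal (0 : Eu d) L')) =
      ∫⁻ ω, g0 (pt ω) ∂PL (leb lam (bal (0 : Eu d) L)) := by
  haveI i1 := finite_leb lam (V := bal (0 : Eu d) L') isBounded_closedBall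
  haveI i2 := finite_leb lam (V := bal (0 : Eu d) L) isBounded_closedBall
  haveI i3 := finite_leb lam (V := bal (0 : Eu d) r) isBounded_closedBall
  have h1 := (hR (Eu d) (leb lam (bal (0 : Eu d) L')) (bal y r) measurableSet_closedBall).1 gy hy
  have h2 := (hR (Eu d) (leb lam (bal (0 : Eu d) L)) (bal 0 r) measurableSet_closedBall).1 g0 h0
  have e1 : ∀ ω : Cfg (Eu d), gy (pt ω ∩ bal y r) = gy (pt ω) := fun ω => hly _ (pt_finite ω)
  have e2 : ∀ ω : Cfg (Eu d), g0 (pt ω ∩ bal 0 r) = g0 (pt ω) := fun ω => hl0 _ (pt_finite ω)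
  simp only [e1] at h1
  simp only [e2] at h2
  have s1 : bal y r ⊆ bal (0 : Eu d) L' := by
    refine closedBall_subset_closedBall' ?_
    rw [dist_zero_right]
    exact hrL'
  have s2 : bal (0 : Eu d) r ⊆ bal (0 : Eu d) L := closedBall_subset_closedBall hrL
  have m1 : MeasurableSet (bal y r) := measurableSet_closedBall
  have m2 : MeasurableSet (bal (0 : Eu d) r) := measurableSet_closedBall
  rw [h1, h2, leb_restrict lam m1 s1, leb_restrict lam m2 s2, ← leb_map lam y r]
  rw [hI (Eu d) (Eu d) (leb lam (bal (0 : Eu d) r)) (fun z => z + y) gy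
    (measurable_add_const y) hy]
  exact lintegral_congr fun ω => htr _

/-- locality -/
theorem good_local (hD : InvDStatement) (th : ℕ → ℝ) (hth : ∀ j, th j ≤ 2) (P : Set (Eu d))
    (hP : P.Finite) (o : Eu d) (n i : ℕ) (hi : i ≤ n) :
    (good th (P ∩ bal o (2 * n + 2)) o i ↔ good th P o i) ∧
    (good th P o i → ∀ j ≤ i, inv (P ∩ bal o (2 * n + 2)) o j = inv P o j) := by
  have hLP : LF P := fun A _ => hP.subset inter_subset_left
  have hLQ : LF (P ∩ bal o (2 * n + 2)) := fun A _ =>
    (hP.subset inter_subset_left).subset inter_subset_left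
  have hsub : bal o (2 * i + 2) ⊆ bal o (2 * n + 2) := by
    refine closedBall_subset_closedBall ?_
    have : (i : ℝ) ≤ n := by exact_mod_cast hi
    linarith
  have he : P ∩ bal o (2 * i + 2) = (P ∩ bal o (2 * n + 2)) ∩ bal o (2 * i + 2) := by
    rw [inter_assoc, inter_eq_right.2 hsub]
  have h1 := (hD d P (P ∩ bal o (2 * n + 2)) o hLP hLQ).2.2.2.2.1 th i hth
  have h2 := (hD d (P ∩ bal o (2 * n + 2)) P o hLQ hLP).2.2.2.2.1 th i hth
  refine ⟨⟨fun h => (h2 h he.symm).1, fun h => (h1 h he).1⟩, fun h => (h1 h he).2⟩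

theorem occ_local (hD : InvDStatement) (th : ℕ → ℝ) (hth : ∀ j, th j ≤ 2) (P : Set (Eu d))
    (hP : P.Finite) (o : Eu d) (n : ℕ) (f : Eu d → ℝ≥0∞) :
    occ th (P ∩ bal o (2 * n + 2)) o n f = occ th P o n f := by
  unfold occ
  refine Finset.sum_congr rfl fun i hi => ?_
  have hi' : i ≤ n := (Finset.mem_range.1 hi).le
  obtain ⟨h1, h2⟩ := good_local hD th hth P hP o n i hi'
  rw [ind_congr h1]
  by_cases hg : good th P o i
  · have h3 := h2 hg
    have h4 : newp (P ∩ bal o (2 * n + 2)) o i = newp P o i := by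
      cases i with
      | zero => rfl
      | succ k =>
        change inv (P ∩ bal o (2 * n + 2)) o (k + 1) \ inv (P ∩ bal o (2 * n + 2)) o k =
          inv P o (k + 1) \ inv P o k
        rw [h3 (k + 1) le_rfl, h3 k (Nat.le_succ k)]
    unfold nnew
    rw [h4]
  · have : ind (good th P o i) = 0 := by rw [ind_congr (iff_false_intro hg), ind_false]
    rw [this, zero_mul, zero_mul]

theorem good_transl (hS : InvScStatement) (th : ℕ → ℝ) (P : Set (Eu d)) (y : Eu d) (i : ℕ) :
    good th ((fun z => z + y) '' P) y i ↔ good th P 0 i := by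
  unfold good
  have h : ∀ j, lab ((fun z => z + y) '' P) y j = lab P 0 j := by
    intro j
    have h1 := ((hS d P 0 j).2.2.2.1 y).2
    rwa [zero_add] at h1
  simp only [h]

theorem occ_transl (hS : InvScStatement) (th : ℕ → ℝ) (P : Set (Eu d)) (y : Eu d) (n : ℕ)
    (f : Eu d → ℝ≥0∞) :
    occ th ((fun z => z + y) '' P) y n f = occ th P 0 n (fun b => f (b + y)) := by
  unfold occ
  refine Finset.sum_congr rfl fun i _ => ?_
  rw [ind_congr (good_transl hS th P y i)]
  congr 1
  have hinj : Function.Injective (fun z : Eu d => z + y) := add_left_injective y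
  have h1 : ∀ j, inv ((fun z => z + y) '' P) y j = (fun z => z + y) '' inv P 0 j := by
    intro j
    have h1 := ((hS d P 0 j).2.2.2.1 y).1
    rwa [zero_add] at h1
  have h2 : newp ((fun z => z + y) '' P) y i = (fun z => z + y) '' newp P 0 i := by
    cases i with
    | zero => simp [newp]
    | succ k =>
      change inv ((fun z => z + y) '' P) y (k + 1) \ inv ((fun z => z + y) '' P) y k =
        (fun z => z + y) '' (inv P 0 (k + 1) \ inv P 0 k)
      rw [h1, h1, image_sdiff hinj]
  unfold nnew
  rw [h2]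
  exact tsum_image f hinj.injOn

theorem cm_good (hM : InvMStatement) (th : ℕ → ℝ) (o : Eu d) (i : ℕ) :
    MeasurableSet {ω : Cfg (Eu d) | good th (pt ω) o i} := by
  have h1 := (hM d i).2.2.2.1 th
  have h2 : Measurable fun ω : Cfg (Eu d) => (o, ω) := measurable_const.prodMk measurable_id
  exact h2 h1

theorem cm_occ (hM : InvMStatement) (th : ℕ → ℝ) (o : Eu d) (n : ℕ) (f : Eu d → ℝ≥0∞)
    (hf : Measurable f) : CM fun P => occ th P o n f := by
  unfold CM occ
  refine Finset.measurable_fun_sum _ fun i _ => ?_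
  refine (measurable_ind (cm_good hM th o i)).mul ?_
  have h1 := (hM d i).2.2.2.2.1 Unit (fun _ => f) (hf.comp measurable_snd)
  have h2 : Measurable fun ω : Cfg (Eu d) => ((() : Unit), o, ω) :=
    measurable_const.prodMk (measurable_const.prodMk measurable_id)
  exact h1.comp h2

theorem munv (hD : InvDStatement) (hS : InvScStatement) (hI : ImgStatement) (hR : ResStatement)
    (hM : InvMStatement) : MunVStatement := by
  intro d lam th n L L' y f hd hth hf hL hL'
  constructor
  · unfold mun
    exact local_transl hR hI lam (fun P => occ th P y n f)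
      (fun P => occ th P 0 n (fun b => f (b + y))) (2 * n + 2) L L' y (cm_occ hM th y n f hf)
      (cm_occ hM th 0 n _ (hf.comp (measurable_add_const y)))
      (fun P hP => occ_local hD th hth P hP y n f)
      (fun P hP => occ_local hD th hth P hP 0 n _) (fun P => occ_transl hS th P y n f) hL hL'
  · unfold pgood
    rw [← lintegral_ind (cm_good hM th y n), ← lintegral_ind (cm_good hM th 0 n)]
    exact local_transl hR hI lam (fun P => ind (good th P y n))
      (fun P => ind (good th P 0 n)) (2 * n + 2) L L' y (measurable_ind (cm_good hM th y n))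
      (measurable_ind (cm_good hM th 0 n))
      (fun P hP => ind_congr (good_local hD th hth P hP y n n le_rfl).1)
      (fun P hP => ind_congr (good_local hD th hth P hP 0 n n le_rfl).1)
      (fun P => ind_congr (good_transl hS th P y n)) hL hL'

end Pool.Agent.Lib.MP_5349a4_pr.H10
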